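import Pool.Agent.Helper37.KD.DefsC

/-! KD Part I, piece A3 -/

namespace KD.I.A3

open Finset KD

variable {G : Type*} [Fintype G] [AddCommGroup G]

theorem sum_rho (ρ : G ≃+ G) (F : G → ℝ) : ∑ w, F (ρ w) = ∑ w, F w :=
  Fintype.sum_equiv ρ.toEquiv _ _ (fun _ => rfl)

/-- the pointwise estimate -/
theorem pointwise (κ q u g : G → ℝ) (ρ : G ≃+ G) (hρ : ∀ w, ρ (ρ w) = w)
    (hq : ∀ z, 0 < q z) (hu : ∀ z, 0 ≤ u z) (hκ : ∀ w, κ (ρ w) = - κ w) (hqρ : ∀ w, q (ρ w) = q w)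
    (hκg : ∀ w, |κ w| ≤ g w * q w) (z : G) :
    cv κ u z ^ 2 ≤ (∑ w, q w * g w ^ 2 * (√(u (z - w)) - √(u (z - ρ w))) ^ 2) * cv q u z := by
  have h1 : cv κ u z = (1 / 2) * ∑ w, κ w * (u (z - w) - u (z - ρ w)) := by
    have h2 : ∑ w, κ w * u (z - ρ w) = - cv κ u z := by
      unfold cv
      rw [← sum_rho ρ (fun w => κ w * u (z - ρ w)), ← sum_neg_distrib]
      refine sum_congr rfl fun w _ => ?_
      rw [hκ, hρ]
      ring
    have h3 : ∑ w, κ w * (u (z - w) - u (z - ρ w)) =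
        cv κ u z - ∑ w, κ w * u (z - ρ w) := by
      unfold cv
      rw [← sum_sub_distrib]
      refine sum_congr rfl fun w _ => ?_
      ring
    rw [h3, h2]
    ring
  set a : G → ℝ := fun w => √(u (z - w)) with ha
  set b : G → ℝ := fun w => √(u (z - ρ w)) with hb
  have ha2 : ∀ w, u (z - w) = a w ^ 2 := fun w => (Real.sq_sqrt (hu _)).symm
  have hb2 : ∀ w, u (z - ρ w) = b w ^ 2 := fun w => (Real.sq_sqrt (hu _)).symm
  have ha0 : ∀ w, 0 ≤ a w := fun w => Real.sqrt_nonneg _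
  have hb0 : ∀ w, 0 ≤ b w := fun w => Real.sqrt_nonneg _
  have h4 : |∑ w, κ w * (u (z - w) - u (z - ρ w))| ≤
      ∑ w, (√(q w) * (g w * |a w - b w|)) * (√(q w) * (a w + b w)) := by
    refine (abs_sum_le_sum_abs _ _).trans (sum_le_sum fun w _ => ?_)
    rw [abs_mul, ha2, hb2, show a w ^ 2 - b w ^ 2 = (a w - b w) * (a w + b w) by ring, abs_mul,
      abs_of_nonneg (add_nonneg (ha0 w) (hb0 w))]
    have h5 : (√(q w) * (g w * |a w - b w|)) * (√(q w) * (a w + b w)) =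
        (g w * (√(q w) * √(q w))) * (|a w - b w| * (a w + b w)) := by ring
    rw [h5, Real.mul_self_sqrt (hq w).le]
    exact mul_le_mul_of_nonneg_right (hκg w)
      (mul_nonneg (abs_nonneg _) (add_nonneg (ha0 w) (hb0 w)))
  have h6 : (∑ w, (√(q w) * (g w * |a w - b w|)) * (√(q w) * (a w + b w))) ^ 2 ≤
      (∑ w, q w * g w ^ 2 * (a w - b w) ^ 2) * (4 * cv q u z) := by
    refine (sum_mul_sq_le_sq_mul_sq _ _ _).trans ?_
    have h7 : ∑ w, (√(q w) * (g w * |a w - b w|)) ^ 2 =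
        ∑ w, q w * g w ^ 2 * (a w - b w) ^ 2 := by
      refine sum_congr rfl fun w _ => ?_
      rw [mul_pow, mul_pow, Real.sq_sqrt (hq w).le, sq_abs]
      ring
    have h8 : ∑ w, (√(q w) * (a w + b w)) ^ 2 ≤ 4 * cv q u z := by
      have h9 : ∀ w, (√(q w) * (a w + b w)) ^ 2 ≤
          2 * (q w * u (z - w)) + 2 * (q w * u (z - ρ w)) := by
        intro w
        rw [mul_pow, Real.sq_sqrt (hq w).le, ha2, hb2]
        have h10 : (a w + b w) ^ 2 ≤ 2 * a w ^ 2 + 2 * b w ^ 2 := by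
          nlinarith [sq_nonneg (a w - b w)]
        have h11 := mul_le_mul_of_nonneg_left h10 (hq w).le
        linarith
      refine (sum_le_sum fun w _ => h9 w).trans ?_
      rw [sum_add_distrib, ← mul_sum, ← mul_sum]
      have h12 : ∑ w, q w * u (z - ρ w) = cv q u z := by
        unfold cv
        rw [← sum_rho ρ (fun w => q w * u (z - w))]
        refine sum_congr rfl fun w _ => ?_
        rw [hqρ]
      have h13 : ∑ w, q w * u (z - w) = cv q u z := rfl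
      rw [h12, h13]
      linarith
    rw [h7]
    refine mul_le_mul_of_nonneg_left h8 (sum_nonneg fun w _ => ?_)
    exact mul_nonneg (mul_nonneg (hq w).le (sq_nonneg _)) (sq_nonneg _)
  have h14 : (∑ w, κ w * (u (z - w) - u (z - ρ w))) ^ 2 ≤
      (∑ w, q w * g w ^ 2 * (a w - b w) ^ 2) * (4 * cv q u z) := by
    rw [← sq_abs]
    exact (pow_le_pow_left₀ (abs_nonneg _) h4 2).trans h6
  rw [h1, mul_pow]
  linarith

/-- antisymmetrised convolution: if `κ` is odd and `q` even under an involution `ρ` of `G` and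
`|κ| ≤ g q` with `g ≥ 0` invariant, then `∑ (κ*u)²/(q*u) ≤ ∑_w q(w) g(w)² he(u; ρ w - w)`. -/
theorem Qf_antisym (κ q u g : G → ℝ) (ρ : G ≃+ G) (hρ : ∀ w, ρ (ρ w) = w)
    (hq : ∀ z, 0 < q z) (hu : ∀ z, 0 ≤ u z) (hκ : ∀ w, κ (ρ w) = - κ w) (hqρ : ∀ w, q (ρ w) = q w)
    (hg : ∀ w, 0 ≤ g w) (hgρ : ∀ w, g (ρ w) = g w) (hκg : ∀ w, |κ w| ≤ g w * q w) :
    Qf (cv κ u) (cv q u) ≤ ∑ w, q w * g w ^ 2 * he u (w - ρ w) := by
  have h1 : Qf (cv κ u) (cv q u) ≤
      ∑ z, ∑ w, q w * g w ^ 2 * (√(u (z - w)) - √(u (z - ρ w))) ^ 2 := by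
    unfold Qf
    refine sum_le_sum fun z _ => ?_
    have h2 := pointwise κ q u g ρ hρ hq hu hκ hqρ hκg z
    have h3 : 0 ≤ cv q u z := cv_nonneg (fun w => (hq w).le) hu z
    have h4 : 0 ≤ ∑ w, q w * g w ^ 2 * (√(u (z - w)) - √(u (z - ρ w))) ^ 2 :=
      sum_nonneg fun w _ => mul_nonneg (mul_nonneg (hq w).le (sq_nonneg _)) (sq_nonneg _)
    rcases h3.eq_or_lt with h5 | h5
    · rw [← h5, div_zero]
      exact h4
    · rw [div_le_iff₀ h5]
      exact h2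
  refine h1.trans (le_of_eq ?_)
  rw [sum_comm]
  refine sum_congr rfl fun w _ => ?_
  rw [← mul_sum]
  congr 1
  unfold he
  rw [← sum_shift (fun z => (√(u (z - w)) - √(u (z - ρ w))) ^ 2) w]
  refine sum_congr rfl fun z _ => ?_
  rw [show z + w - w = z by abel, show z + w - ρ w = z + (w - ρ w) by abel]
  ring

end KD.I.A3
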