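import Pool.Agent.Helper37.KD.DefsC

/-! KD Part I, piece B2 -/

namespace KD.I.B2

open Finset KD

section gen
variable {d N J : ℕ} [NeZero N] {c0 C0 : ℝ} {Θ : Type} [Fintype Θ] (S : JSys d N J c0 C0 Θ)

theorem Ap_Am (z : GG d N) : Ap 1 (Am 1 z) = z := by
  unfold Ap Am
  simp

theorem Am_Ap (z : GG d N) : Am 1 (Ap 1 z) = z := by
  unfold Ap Am
  simp

/-- `A^{-1}` as an equivalence -/
def AmE : GG d N ≃ GG d N where
  toFun := Am 1
  invFun := Ap 1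
  left_inv := Ap_Am
  right_inv := Am_Ap

theorem sum_Am (F : GG d N → ℝ) : ∑ z, F (Am 1 z) = ∑ z, F z :=
  Fintype.sum_equiv AmE _ _ (fun _ => rfl)

theorem wt_nonneg (s : ℝ) (j : ℕ) (θ : Θ) : 0 ≤ S.wt s j θ :=
  div_nonneg (S.m_nn θ) (tim_pos s j).le

theorem wt_le {s : ℝ} (hs : 0 < s) (j : ℕ) (θ : Θ) : S.wt s j θ ≤ S.m θ :=
  div_le_self (S.m_nn θ) (one_le_tim hs j)

theorem rate_le {s lam Lam M0 : ℝ} (hs : 0 < s) (hlam : 0 < lam) (hLam : 0 < Lam)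
    {a : ℕ → Θ → GG d N → ℝ} (ha : JSys.Coef S lam Lam M0 a) (z : GG d N) :
    ∑ j ∈ range (J + 1), ∑ θ, S.wt s j θ * a j θ z ≤ (J + 1 : ℝ) * (C0 * Lam) := by
  have h1 : ∀ j ∈ range (J + 1), ∑ θ, S.wt s j θ * a j θ z ≤ C0 * Lam := by
    intro j _
    calc ∑ θ, S.wt s j θ * a j θ z ≤ ∑ θ, S.m θ * Lam := by
          refine sum_le_sum fun θ _ => ?_
          exact mul_le_mul (wt_le S hs j θ) (ha.hi j θ z) (hlam.le.trans (ha.lo j θ z)) (S.m_nn θ)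
      _ = (∑ θ, S.m θ) * Lam := by rw [sum_mul]
      _ ≤ C0 * Lam := mul_le_mul_of_nonneg_right S.mass hLam.le
  refine (sum_le_sum h1).trans (le_of_eq ?_)
  rw [sum_const, card_range, nsmul_eq_mul]
  push_cast
  ring

theorem Jop_isP {s lam Lam M0 ε : ℝ} (hs : 0 < s) (hlam : 0 < lam) (hLam : 0 < Lam)
    (hε : 0 < ε) (hε1 : ε * ((J + 1 : ℝ) * (C0 * Lam)) ≤ 1)
    {a : ℕ → Θ → GG d N → ℝ} (ha : JSys.Coef S lam Lam M0 a) {μ : GG d N → ℝ} (hμ : IsP μ) :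
    IsP (S.Jop s ε a μ) := by
  constructor
  · intro z
    unfold JSys.Jop
    have h1 : ∑ j ∈ range (J + 1), ∑ θ, S.wt s j θ *
        (a j θ (z + S.jv j θ) * μ (z + S.jv j θ) - a j θ z * μ z) =
        ∑ j ∈ range (J + 1), ∑ θ, S.wt s j θ * (a j θ (z + S.jv j θ) * μ (z + S.jv j θ)) -
        (∑ j ∈ range (J + 1), ∑ θ, S.wt s j θ * a j θ z) * μ z := by
      rw [sum_mul, ← sum_sub_distrib]
      refine sum_congr rfl fun j _ => ?_
      rw [sum_mul, ← sum_sub_distrib]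
      refine sum_congr rfl fun θ _ => ?_
      ring
    have h2 : 0 ≤ ∑ j ∈ range (J + 1), ∑ θ, S.wt s j θ *
        (a j θ (z + S.jv j θ) * μ (z + S.jv j θ)) := by
      refine sum_nonneg fun j _ => sum_nonneg fun θ _ => ?_
      exact mul_nonneg (wt_nonneg S s j θ) (mul_nonneg (hlam.le.trans (ha.lo _ _ _)) (hμ.nn _))
    have h3 := rate_le S hs hlam hLam ha z
    have h4 : ε * (∑ j ∈ range (J + 1), ∑ θ, S.wt s j θ * a j θ z) ≤ 1 :=
      (mul_le_mul_of_nonneg_left h3 hε.le).trans hε1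
    have h5 := mul_le_mul_of_nonneg_right h4 (hμ.nn z)
    have h6 := mul_nonneg hε.le h2
    rw [h1]
    nlinarith
  · have h0 : ∀ z, S.Jop s ε a μ z = μ z + ε * ∑ j ∈ range (J + 1), ∑ θ, S.wt s j θ *
        (a j θ (z + S.jv j θ) * μ (z + S.jv j θ) - a j θ z * μ z) := fun z => rfl
    rw [sum_congr rfl fun z _ => h0 z, sum_add_distrib, hμ.one, ← mul_sum, sum_comm]
    have h1 : ∀ j ∈ range (J + 1), ∑ z, ∑ θ, S.wt s j θ *
        (a j θ (z + S.jv j θ) * μ (z + S.jv j θ) - a j θ z * μ z) = 0 := by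
      intro j _
      rw [sum_comm]
      refine sum_eq_zero fun θ _ => ?_
      rw [← mul_sum, sum_sub_distrib,
        sum_shift (fun z => a j θ z * μ z) (S.jv j θ), sub_self, mul_zero]
    rw [sum_eq_zero h1, mul_zero, add_zero]

theorem step_isP' {s lam Lam M0 ε : ℝ} (hs : 0 < s) (hlam : 0 < lam) (hLam : 0 < Lam)
    (hε : 0 < ε) (hε1 : ε * ((J + 1 : ℝ) * (C0 * Lam)) ≤ 1)
    {a : ℕ → Θ → GG d N → ℝ} (ha : JSys.Coef S lam Lam M0 a) {μ : GG d N → ℝ} (hμ : IsP μ) :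
    IsP (S.step s ε a μ) := by
  have h := Jop_isP S hs hlam hLam hε hε1 ha hμ
  constructor
  · intro z
    exact h.nn _
  · have h1 : ∑ z, S.step s ε a μ z = ∑ z, S.Jop s ε a μ (Am 1 z) := rfl
    rw [h1, sum_Am, h.one]

end gen

/-- for small `ε` the jump operator and the step preserve probability vectors,
and the levels commute with the jump operator -/
theorem step_isP (s Lam c0 C0 C1 : ℝ) (d : ℕ) (hs : 0 < s) (hLam : 0 < Lam) (hC0 : 0 < C0) (K : ℕ) :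
    ∃ ε0 : ℝ, 0 < ε0 ∧ ∀ (E : Env d s c0 C0 C1), E.K = K → E.ε ≤ ε0 →
    ∀ (lam M0 : ℝ) (a : ℕ → E.Θ → E.G → ℝ), 0 < lam → E.S.Coef lam Lam M0 a → ∀ μ, IsP μ →
      IsP (E.Jop a μ) ∧ IsP (E.step a μ) := by
  have hpos : 0 < (((K + 3 : ℕ) : ℝ) + 1) * (C0 * Lam) := by positivity
  refine ⟨1 / ((((K + 3 : ℕ) : ℝ) + 1) * (C0 * Lam)), by positivity, ?_⟩
  intro E hK hε lam M0 a hlam ha μ hμ
  subst hK
  rw [le_div_iff₀ hpos] at hε
  exact ⟨Jop_isP E.S hs hlam hLam E.hε hε ha hμ, step_isP' E.S hs hlam hLam E.hε hε ha hμ⟩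

theorem lev_Jop {d : ℕ} {s c0 C0 C1 : ℝ} (E : Env d s c0 C0 C1) (a : ℕ → E.Θ → E.G → ℝ)
    (μ : E.G → ℝ) (k : ℕ) (z : E.G) :
    lev E.q (E.Jop a μ) k z = lev E.q μ k z + E.ε * ∑ j ∈ range (E.K + 4), ∑ θ, E.S.wt s j θ *
      (E.bl a μ k j θ (z + E.S.jv j θ) - E.bl a μ k j θ z) := by
  have h0 : E.Jop a μ = fun z => μ z + E.ε * ∑ j ∈ range (E.K + 4), ∑ θ, E.S.wt s j θ *
      (a j θ (z + E.S.jv j θ) * μ (z + E.S.jv j θ) - a j θ z * μ z) := rfl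
  rw [h0, lev_add]
  simp only
  congr 1
  rw [lev_smul]
  simp only
  congr 1
  rw [lev_sum]
  simp only
  refine sum_congr rfl fun j _ => ?_
  rw [lev_sum]
  simp only
  refine sum_congr rfl fun θ _ => ?_
  rw [lev_smul]
  simp only
  congr 1
  rw [lev_sub E.q (fun z => a j θ (z + E.S.jv j θ) * μ (z + E.S.jv j θ))
    (fun z => a j θ z * μ z) k]
  simp only
  unfold Env.bl
  rw [lev_shift]

/-- chain stays a probability vector -/
theorem chain_isP (s lam Lam c0 C0 C1 : ℝ) (d : ℕ) (hs : 0 < s) (hlam : 0 < lam) (hLam : lam ≤ Lam)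
    (hC0 : 0 < C0) (K : ℕ) : ∃ ε0 : ℝ, 0 < ε0 ∧
    ∀ (E : Env d s c0 C0 C1), E.K = K → E.ε ≤ ε0 →
    ∀ (M0 : ℝ) (a : ℕ → ℕ → E.Θ → E.G → ℝ), (∀ n, E.S.Coef lam Lam M0 (a n)) →
    ∀ n, IsP (E.chain a n) := by
  obtain ⟨ε0, hε0, h⟩ := step_isP s Lam c0 C0 C1 d hs (lt_of_lt_of_le hlam hLam) hC0 K
  refine ⟨ε0, hε0, ?_⟩
  intro E hK hε M0 a ha n
  induction n with
  | zero =>
    have h0 : E.chain a 0 = Pi.single 0 1 := rfl
    rw [h0]
    constructor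
    · intro z
      by_cases hz : z = 0
      · subst hz
        simp
      · rw [Pi.single_eq_of_ne hz]
    · rw [Finset.sum_pi_single']
      simp
  | succ n ih =>
    have h1 : E.chain a (n + 1) = E.step (a n) (E.chain a n) := rfl
    rw [h1]
    exact (h E hK hε lam M0 (a n) hlam (ha n) _ ih).2

end KD.I.B2
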