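import Pool.Agent.Helper37.KD.St.C1
import Pool.Agent.Helper37.KD.St.C3

/-! KD Part I, piece F5 -/

namespace KD.I.F5

open Finset KD

section gen
variable {G : Type*} [Fintype G]

/-- weighted vector -/
noncomputable def wv (u m : G → ℝ) : EuclideanSpace ℝ G := WithLp.toLp 2 (fun z => m z / √(u z))

theorem wv_norm (u m : G → ℝ) (hu : ∀ z, 0 < u z) : ‖wv u m‖ = √(Qf m u) := by
  unfold wv Qf
  rw [EuclideanSpace.norm_eq]
  congr 1
  refine sum_congr rfl fun z _ => ?_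
  rw [Real.norm_eq_abs, sq_abs]
  simp only
  rw [div_pow, Real.sq_sqrt (hu z).le]

theorem wv_add (u m n : G → ℝ) : wv u (fun z => m z + n z) = wv u m + wv u n := by
  unfold wv
  ext z
  simp [add_div]

theorem wv_smul (u m : G → ℝ) (c : ℝ) : wv u (fun z => c * m z) = c • wv u m := by
  unfold wv
  ext z
  simp [mul_div_assoc]

theorem wv_sum {ι : Type*} (t : Finset ι) (u : G → ℝ) (m : ι → G → ℝ) :
    wv u (fun z => ∑ i ∈ t, m i z) = ∑ i ∈ t, wv u (m i) := by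
  classical
  induction t using Finset.induction_on with
  | empty =>
    simp only [sum_empty]
    unfold wv
    ext z
    simp
  | insert a t ha ih =>
    rw [sum_insert ha, ← ih, ← wv_add]
    congr 1
    funext z
    rw [sum_insert ha]

theorem sq_le (a b : ℝ) (ha : 0 < a) (hb : 0 ≤ b) : (√a - √b) ^ 2 ≤ (a - b) ^ 2 / a := by
  rw [le_div_iff₀ ha]
  have h1 : a - b = (√a - √b) * (√a + √b) := by
    have h2 := Real.mul_self_sqrt ha.le
    have h3 := Real.mul_self_sqrt hb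
    nlinarith
  have h4 : a ≤ (√a + √b) ^ 2 := by
    have h2 := Real.sq_sqrt ha.le
    have h3 := Real.sqrt_nonneg a
    have h5 := Real.sqrt_nonneg b
    nlinarith
  rw [h1, mul_pow]
  exact mul_le_mul_of_nonneg_left h4 (sq_nonneg _)

end gen

/-- transport part of the drift -/
theorem drift_transport (s c0 C0 C1 : ℝ) (d : ℕ) (hs : 0 < s) (hC1 : 0 < C1) : ∃ C : ℝ, 0 < C ∧
    ∀ K : ℕ, ∃ CK : ℝ, 0 < CK ∧
    ∀ (E : Env d s c0 C0 C1), E.K = K → ∀ ν : E.G → ℝ, IsP ν → ∀ k ≤ K,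
      √(∑ z, (√(lev E.q ν (k + 1) z) - √(lev E.q (fun y => ν (Ap 1 y)) (k + 1) (Am 1 z))) ^ 2) ≤
        C / E.R k * ∑ j ∈ range (k + 1), √(E.Yk ν j) + CK * E.ε ^ 2 := by
  obtain ⟨C3, hC3, hmm⟩ := mm_diff_bound s c0 C0 C1 d hs
  refine ⟨(d : ℝ) / 2 * C3 + 1, by positivity, ?_⟩
  intro K
  obtain ⟨CK, hCK, hEr⟩ := Er_bound s c0 C0 C1 d hs hC1 K
  refine ⟨CK, hCK, ?_⟩
  intro E hK ν hν k hk
  subst hK
  have hR := E.R_pos k
  set u : E.G → ℝ := lev E.q ν (k + 1) with hu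
  have hupos : ∀ z, 0 < u z := fun z => E.u_pos hν hk z
  set w : E.G → ℝ := fun z => lev E.q (fun y => ν (Ap 1 y)) (k + 1) (Am 1 z) with hw
  have hwnn : ∀ z, 0 ≤ w z := fun z =>
    lev_nonneg (fun j hj y => (E.q_pos (by omega) y).le) (fun y => hν.nn _) _
  have h1 : √(∑ z, (√(u z) - √(w z)) ^ 2) ≤ √(Qf (fun z => u z - w z) u) := by
    refine Real.sqrt_le_sqrt ?_
    unfold Qf
    exact sum_le_sum fun z _ => sq_le (u z) (w z) (hupos z) (hwnn z)
  refine h1.trans ?_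
  set Δ : ℕ → Fin d → E.G → ℝ := fun j i z =>
    E.mm ν k j i (z + xs (ee i)) - E.mm ν k j i (z - xs (ee i)) with hΔ
  have h2 : (fun z => u z - w z) = fun z => E.Er ν k z +
      ∑ j ∈ range (k + 1), ∑ i, (1 / 2) * Δ j i z := by
    funext z
    have h3 : E.Er ν k z = u z - w z - (1 / 2) * ∑ j ∈ range (k + 1), ∑ i, Δ j i z := rfl
    rw [h3, mul_sum]
    have h4 : ∑ j ∈ range (k + 1), (1 / 2) * ∑ i, Δ j i z =
        ∑ j ∈ range (k + 1), ∑ i, (1 / 2) * Δ j i z :=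
      sum_congr rfl fun j _ => by rw [mul_sum]
    rw [h4]
    ring
  rw [← wv_norm u _ hupos, h2, wv_add, wv_sum]
  have h5 : ∀ j, wv u (fun z => ∑ i, (1 / 2) * Δ j i z) = ∑ i, (1 / 2 : ℝ) • wv u (Δ j i) := by
    intro j
    rw [wv_sum]
    refine sum_congr rfl fun i _ => ?_
    rw [wv_smul]
  rw [sum_congr rfl fun j _ => h5 j]
  have h6 : ‖wv u (E.Er ν k)‖ ≤ CK * E.ε ^ 2 := by
    rw [wv_norm u _ hupos]
    rw [Real.sqrt_le_left (by have := E.hε; positivity)]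
    exact (hEr E rfl ν hν k hk).1
  have h7 : ∀ j ∈ range (k + 1), ‖∑ i, (1 / 2 : ℝ) • wv u (Δ j i)‖ ≤
      (d : ℝ) / 2 * C3 / E.R k * √(E.Yk ν j) := by
    intro j hj
    have hjk : j ≤ k := Nat.lt_succ_iff.1 (mem_range.1 hj)
    refine (norm_sum_le _ _).trans ?_
    have h8 : ∀ i ∈ (univ : Finset (Fin d)), ‖(1 / 2 : ℝ) • wv u (Δ j i)‖ ≤
        1 / 2 * (C3 / E.R k * √(E.Yk ν j)) := by
      intro i _
      rw [norm_smul, Real.norm_of_nonneg (by norm_num : (0 : ℝ) ≤ 1 / 2)]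
      refine mul_le_mul_of_nonneg_left ?_ (by norm_num)
      rw [wv_norm u _ hupos]
      refine (Real.sqrt_le_sqrt (hmm E ν hν k j hjk hk i i)).trans (le_of_eq ?_)
      rw [Real.sqrt_mul (sq_nonneg _), Real.sqrt_sq (div_nonneg hC3.le hR.le)]
    refine (sum_le_sum h8).trans (le_of_eq ?_)
    rw [sum_const, card_univ, Fintype.card_fin, nsmul_eq_mul]
    ring
  have h9 : ‖∑ j ∈ range (k + 1), ∑ i, (1 / 2 : ℝ) • wv u (Δ j i)‖ ≤
      ((d : ℝ) / 2 * C3 + 1) / E.R k * ∑ j ∈ range (k + 1), √(E.Yk ν j) := by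
    refine (norm_sum_le _ _).trans ((sum_le_sum h7).trans ?_)
    rw [← mul_sum]
    refine mul_le_mul_of_nonneg_right ?_ (sum_nonneg fun j _ => Real.sqrt_nonneg _)
    exact div_le_div_of_nonneg_right (by linarith) hR.le
  refine (norm_add_le _ _).trans ?_
  linarith

end KD.I.F5
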